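import Pool.Agent.Helper28.Sus.Goals

/-!
# SUS-RCC: completeness of reachability
-/

namespace Pool.Agent.Helper85.Sus

open Pool.Agent.Helper28.Sus

theorem rcc : RCC_stmt := by
  intro E Z k hE
  induction k with
  | zero =>
    intro K c hK _ h
    rw [rc_zero]
    have hK' : K = 0 ∨ K = 1 := by
      rw [pow_zero] at hK
      omega
    rcases hK' with rfl | rfl
    · exact hE (c 0)
    · exact h 0 (by norm_num)
  | succ k ih =>
    intro K c hK hZ h
    rw [rc_succ]
    have h2 : 2 ^ (k + 1) = 2 ^ k + 2 ^ k := by rw [pow_succ]; ring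
    refine ⟨c (min K (2 ^ k)), hZ _ (min_le_left _ _), ?_, ?_⟩
    · exact ih (min K (2 ^ k)) c (min_le_right _ _)
        (fun i hi => hZ i (le_trans hi (min_le_left _ _)))
        (fun i hi => h i (lt_of_lt_of_le hi (min_le_left _ _)))
    · have h3 := ih (K - min K (2 ^ k)) (fun i => c (min K (2 ^ k) + i)) (by omega)
        (fun i hi => hZ _ (by omega)) (fun i hi => by
          have h4 := h (min K (2 ^ k) + i) (by omega)
          rwa [add_assoc] at h4)
      have h5 : min K (2 ^ k) + (K - min K (2 ^ k)) = K := by omega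
      simpa [h5] using h3

end Pool.Agent.Helper85.Sus
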